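import Pool.Agent.Lib.MP_a0e599_al.Main

namespace Pool.Agent.Results.MP_a0e599_al.GenericOddHomology

open ExteriorAlgebra

/-- A family of coefficients is generic: pairwise distinct, none rational, and the set of them
is algebraically independent over the rationals. -/
def IsGeneric {K M : Type*} [Field K] [CharZero K] (c : M → K) : Prop :=
  Function.Injective c ∧ (∀ m, c m ∉ Set.range (algebraMap ℚ K)) ∧
    AlgebraicIndependent ℚ (Subtype.val : Set.range c → K)

/-- Let `f` be a generic form of odd degree `d` in the exterior algebra on `n ≥ d (r + 1)`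
variables.  Then every `g` of degree `r` with `g f = 0` is `h f` with `h` of degree `r - d`
(and is `0` when `r < d`), that is `H_r(n, d) = 0`. -/
theorem result (K : Type*) [Field K] [CharZero K] (d : ℕ) (hd : Odd d) (r n : ℕ)
    (hn : d * (r + 1) ≤ n) (V : Type*) [AddCommGroup V] [Module K V]
    (x : Module.Basis (Fin n) K V) (c : Set.powersetCard (Fin n) d → K) (hc : IsGeneric c)
    (f : ExteriorAlgebra K V) (hf : f = ∑ m, c m • ExteriorAlgebra.ιMulti_family K d x m) :
    ∀ g ∈ ⋀[K]^r V, g * f = 0 → g = 0 ∨ ∃ p : ℕ, p + d = r ∧ ∃ h ∈ ⋀[K]^p V, g = h * f := by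
  classical
  intro g hg hgf
  have hc' : AlgebraicIndependent ℚ c :=
    hc.2.2.comp (fun m => (⟨c m, m, rfl⟩ : Set.range c))
      fun a b hab => hc.1 (congrArg Subtype.val hab)
  obtain ⟨B, hB, hdisj⟩ := Lib.MP_a0e599_al.exists_blocks hn
  have hf' : f = ∑ s, c s • x.ExteriorAlgebra s := by
    rw [hf]; simp_rw [basis_apply_powersetCard]
  have hfd : f ∈ ⋀[K]^d V := by
    rw [hf']
    refine Submodule.sum_mem _ fun s _ => Submodule.smul_mem _ _ ?_
    have := Lib.MP_a0e599_al.e_mem x (s : Finset (Fin n))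
    rwa [Set.powersetCard.card_eq s] at this
  have key := Lib.MP_a0e599_al.exact_of_blocks x B hd hB hdisj (Nat.lt_succ_self r) c hc' f hf'
  have hfg : f * g = 0 := by
    rw [Lib.MP_a0e599_al.mul_comm_graded hg hfd, hgf, smul_zero]
  have hmem : g ∈ (⨆ (p : ℕ) (_ : p + d = r), ⋀[K]^p V).map (LinearMap.mulLeft K f) :=
    key ▸ ⟨hg, hfg⟩
  obtain ⟨h, hh, rfl⟩ := hmem
  by_cases hdr : d ≤ r
  · right
    have hh' : h ∈ ⋀[K]^(r - d) V := by
      refine (iSup₂_le fun p hp => ?_ : _ ≤ ⋀[K]^(r - d) V) hh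
      have : p = r - d := by omega
      rw [this]
    refine ⟨r - d, by omega, (-1 : K) ^ ((r - d) * d) • h, Submodule.smul_mem _ _ hh', ?_⟩
    rw [LinearMap.mulLeft_apply, Lib.MP_a0e599_al.mul_comm_graded hh' hfd, smul_mul_assoc]
  · left
    have hle : (⨆ (p : ℕ) (_ : p + d = r), ⋀[K]^p V) ≤ ⊥ :=
      iSup₂_le fun p hp => absurd hp (by omega)
    rw [(Submodule.mem_bot K).mp (hle hh), map_zero]

end Pool.Agent.Results.MP_a0e599_al.GenericOddHomology
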